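import Pool.Agent.L5helper59.NC.TwoStep
import Pool.Agent.L5helper59.NC.MainSize
import Pool.Agent.L5helper67.NC.Cubic
import Pool.Agent.L5helper67.NC.NetMulti

/-!
The numeric chain of the cubic bound, from the abstract count of points.
-/

set_option autoImplicit false

namespace Pool.Agent.L5helper59.DM

open Finset MvPolynomial Filter Topology L5helper59.DC L5lead.NC L5helper96.NC L5helper96.Cub

/-- The count of nondegenerate points for limits of polynomials which are permanents of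
affine `m × m` matrices up to constants. -/
def Good (m M : ℕ) : Prop :=
  ∀ (ι κ : Type) [Fintype ι] [Fintype κ] [DecidableEq ι] [DecidableEq κ],
    Fintype.card ι = Fintype.card κ + 1 →
    ∀ (F : MvPolynomial ι ℂ) (Fk : ℕ → MvPolynomial ι ℂ) (D : ℕ),
    (∀ k, (Fk k).totalDegree ≤ D) →
    (∀ d, Tendsto (fun k => coeff d (Fk k)) atTop (𝓝 (coeff d F))) →
    (∀ k, ∃ (N : Matrix (Fin m) (Fin m) (MvPolynomial ι ℂ)) (K : ℂ), K ≠ 0 ∧
      (∀ x y, (N x y).totalDegree ≤ 1) ∧ N.permanent = C K * Fk k) →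
    ∀ (w : κ → ι → ℂ) (S : Finset (ι → ℂ)), L5helper59.NC.Pts F w S →
    ∀ a b : ℕ, 1 ≤ a → 1 ≤ b →
    S.card * (a ^ Fintype.card ι * b ^ (2 * M)) ≤
      (a + b) ^ (2 * M + 1) * (2 * b) ^ Fintype.card κ

/-- a matrix of affine forms, padded by an identity block -/
theorem pad_permanent {ι : Type} {m m' : ℕ} (hm : m' ≤ m)
    (N : Matrix (Fin m') (Fin m') (MvPolynomial ι ℂ)) (hN : ∀ x y, (N x y).totalDegree ≤ 1) :
    ∃ N' : Matrix (Fin m) (Fin m) (MvPolynomial ι ℂ), (∀ x y, (N' x y).totalDegree ≤ 1) ∧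
      N'.permanent = N.permanent := by
  refine ⟨Matrix.of fun i j : Fin m => if hh : (i : ℕ) < m' ∧ (j : ℕ) < m' then
        N ⟨i, hh.1⟩ ⟨j, hh.2⟩ else if i = j then 1 else 0, fun x y => ?_, ?_⟩
  · rw [Matrix.of_apply]
    split_ifs with h1 h2
    · exact hN _ _
    · rw [totalDegree_one]; omega
    · rw [totalDegree_zero]; omega
  · apply L5helper67.DC.permanent_corner hm
    · intro i j
      rw [Matrix.of_apply, dif_pos ⟨i.2, j.2⟩]
      rfl
    · intro i j hj
      rw [Matrix.of_apply, dif_neg]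
      rintro ⟨_, hlt⟩
      omega

theorem good_mono (m m' M : ℕ) (hm : m' ≤ m) (h : Good m M) : Good m' M := by
  intro ι κ _ _ _ _ hcard F Fk D hdeg hlim hperm w S hS a b ha hb
  refine h ι κ hcard F Fk D hdeg hlim (fun k => ?_) w S hS a b ha hb
  obtain ⟨N, K, hK, hN, hp⟩ := hperm k
  obtain ⟨N', hN', hp'⟩ := pad_permanent hm N hN
  exact ⟨N', K, hK, hN', hp'.trans hp⟩

open L5helper67.NC in
/-- the assembly for `Fin κ` and `Fin 2 × ZMod q` -/
theorem good_assembly_fin (q κ m M : ℕ) [NeZero q]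
    (Gk : ℕ → MvPolynomial (Option (Fin κ × (Fin 2 × ZMod q))) ℂ) (Δ : ℕ)
    (hdeg : ∀ k, (Gk k).totalDegree ≤ Δ)
    (hlim : ∀ d, Filter.Tendsto (fun k => coeff d (Gk k)) Filter.atTop
      (nhds (coeff d (target (Fin κ) (Fin 2 × ZMod q) (q + 1)))))
    (hperm : ∀ k, ∃ (M₀ : Matrix (Fin m) (Fin m)
      (MvPolynomial (Option (Fin κ × (Fin 2 × ZMod q))) ℂ)) (K : ℂ), K ≠ 0 ∧
      (∀ x y, (M₀ x y).totalDegree ≤ 1) ∧ M₀.permanent = C K * Gk k)
    (H : Good m M) (a b : ℕ) (ha : 1 ≤ a) (hb : 1 ≤ b) :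
    ((q.factorial) ^ 2) ^ κ * (a ^ (κ * (2 * q) + 1) * b ^ (2 * M)) ≤
      (a + b) ^ (2 * M + 1) * (2 * b) ^ (κ * (2 * q)) := by
  classical
  obtain ⟨c, S, hScard, hS1, hS2⟩ :=
    L5helper11.DP.esymm_points q (Nat.one_le_iff_ne_zero.2 (NeZero.ne q))
  obtain ⟨T, hTcard, hT0, hT1, hT2⟩ := L5helper67.DC.asm_points (κ := κ)
    (esymm (Fin 2 × ZMod q) ℂ (q + 1)) (fun _ : Fin κ => (1 : ℂ)) 1 (fun _ => one_ne_zero)
    one_ne_zero c S hS1 hS2
  rw [target_eq_asm] at hlim
  have hcard : Fintype.card (Option (Fin κ × (Fin 2 × ZMod q))) =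
      Fintype.card (Fin κ × (Fin 2 × ZMod q)) + 1 := Fintype.card_option
  have hcard2 : Fintype.card (Fin κ × (Fin 2 × ZMod q)) = κ * (2 * q) := by
    rw [Fintype.card_prod, Fintype.card_fin, Fintype.card_prod, Fintype.card_fin, ZMod.card]
  have hfin := H _ _ hcard _ Gk Δ hdeg hlim hperm _ T ⟨hT0, hT1, hT2⟩ a b ha hb
  rw [hcard, hcard2, hTcard, hScard] at hfin
  exact hfin

open L5helper67.NC in
/-- **The assembly.** -/
theorem good_assembly {L V : Type} [Fintype L] [Fintype V]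
    (q m M : ℕ) [NeZero q] (hV : Fintype.card V = 2 * q)
    (Gk : ℕ → MvPolynomial (Option (L × V)) ℂ) (Δ : ℕ)
    (hdeg : ∀ k, (Gk k).totalDegree ≤ Δ)
    (hlim : ∀ d, Filter.Tendsto (fun k => coeff d (Gk k)) Filter.atTop
      (nhds (coeff d (target L V (q + 1)))))
    (hperm : ∀ k, ∃ (M₀ : Matrix (Fin m) (Fin m) (MvPolynomial (Option (L × V)) ℂ)) (K : ℂ),
      K ≠ 0 ∧ (∀ x y, (M₀ x y).totalDegree ≤ 1) ∧ M₀.permanent = C K * Gk k)
    (H : Good m M) (a b : ℕ) (ha : 1 ≤ a) (hb : 1 ≤ b) :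
    ((q.factorial) ^ 2) ^ (Fintype.card L) *
        (a ^ (Fintype.card L * (2 * q) + 1) * b ^ (2 * M)) ≤
      (a + b) ^ (2 * M + 1) * (2 * b) ^ (Fintype.card L * (2 * q)) := by
  classical
  have e₁ : L ≃ Fin (Fintype.card L) := Fintype.equivFin L
  have hV' : Fintype.card V = Fintype.card (Fin 2 × ZMod q) := by
    rw [hV, Fintype.card_prod, Fintype.card_fin, ZMod.card]
  have e₂ : V ≃ Fin 2 × ZMod q := Fintype.equivOfCardEq hV'
  set E := Equiv.optionCongr (Equiv.prodCongr e₁ e₂) with hE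
  refine good_assembly_fin q (Fintype.card L) m M (fun k => rename E (Gk k)) Δ
    (fun k => (totalDegree_rename_le _ _).trans (hdeg k)) ?_ ?_ H a b ha hb
  · intro d
    have h1 : ∀ P : MvPolynomial (Option (L × V)) ℂ,
        coeff d (rename E P) = coeff (d.mapDomain E.symm) P := by
      intro P
      have h2 : d = (d.mapDomain E.symm).mapDomain E := by
        rw [← Finsupp.mapDomain_comp]
        have : (E ∘ E.symm : _ → _) = id := by
          funext x
          simp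
        rw [this, Finsupp.mapDomain_id]
      conv_lhs => rw [h2]
      rw [coeff_rename_mapDomain _ E.injective]
    simp only [h1]
    rw [← rename_target e₁ e₂, ← hE, h1]
    exact hlim _
  · intro k
    obtain ⟨M₀, K, hK, hM₀, hp⟩ := hperm k
    refine ⟨M₀.map (rename E).toRingHom, K, hK, fun x y => ?_, ?_⟩
    · rw [Matrix.map_apply]
      exact (totalDegree_rename_le _ _).trans (hM₀ x y)
    · rw [← permanent_map', hp, map_mul]
      congr 1
      exact rename_C _ _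

/-- the count of points for the sizes `size L (q + 1)` -/
theorem good_main {size : ℕ → ℕ → ℕ} (hC3 : L5helper59.NC.PermSizeStmt size)
    (L q m M : ℕ) (hq : 1 ≤ q) (hN : 2 ^ L = 2 * q) (hm : m = size L (q + 1)) (H : Good m M)
    (a b : ℕ) (ha : 1 ≤ a) (hb : 1 ≤ b) :
    (q.factorial ^ 2) ^ (2 * q) * (a ^ (2 * q * (2 * q) + 1) * b ^ (2 * M)) ≤
      (a + b) ^ (2 * M + 1) * (2 * b) ^ (2 * q * (2 * q)) := by
  have : NeZero q := ⟨by omega⟩
  have h := good_assembly (L := Fin (2 ^ L)) (V := Fin (2 ^ L)) q m M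
    (by rw [Fintype.card_fin, hN])
    (fun k => F2t (2 ^ L) (q + 1) (1 / ((k : ℂ) + 1))) (q + 1 + 1)
    (fun k => L5helper79.NC.F2t_degree _ _ _)
    (by
      intro d
      have h1 := L5helper79.NC.F2t_tendsto (2 ^ L) (q + 1) d
      rw [L5helper79.NC.F2t_zero (2 ^ L) (q + 1)] at h1
      exact h1)
    (by
      intro k
      obtain ⟨A, K, hK, hA, hp⟩ := hC3 (q + 1) L m (by omega) (1 / ((k : ℝ) + 1))
        (by positivity) hm
      refine ⟨A, K, hK, hA, ?_⟩
      rw [hp]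
      push_cast
      rfl)
    H a b ha hb
  rw [Fintype.card_fin, hN] at h
  exact h

theorem cubic_good (m M : ℕ) (h : Good m M) : ((m : ℝ) / 2912) ^ 3 ≤ (M : ℝ) + 1 := by
  have hnet := L5helper67.NC.permSize3 (L5helper67.NC.Net.multi L5helper34.NC.gateStmt)
  rcases Nat.lt_or_ge m 728 with hm | hm
  · have h1 : (m : ℝ) / 2912 ≤ 1 := by
      have : (m : ℝ) < 728 := by exact_mod_cast hm
      rw [div_le_one (by norm_num)]
      linarith
    have h2 : ((m : ℝ) / 2912) ^ 3 ≤ 1 := pow_le_one₀ (by positivity) h1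
    have h3 : (0 : ℝ) ≤ M := Nat.cast_nonneg M
    linarith
  · have h1 := cubic_form 364 (by norm_num) Good (fun L m' M' hL hm' H' => by
      obtain ⟨k, rfl⟩ : ∃ k, L = k + 1 := ⟨L - 1, by omega⟩
      have hN : 2 ^ (k + 1) = 2 * 2 ^ k := by rw [pow_succ]; ring
      have hq : 1 ≤ 2 ^ k := Nat.one_le_two_pow
      have H2 := good_mono m' (size3 (k + 1) (2 ^ k + 1)) M'
        ((size3_le (k + 1) (2 ^ k) hN hL).trans hm') H'
      rw [hN]
      exact cubic (2 ^ k) M' hq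
        (fun a b ha hb => good_main hnet (k + 1) (2 ^ k) _ M' hq hN rfl H2 a b ha hb))
      m M (by omega) h
    have h2 : (8 * ((364 : ℕ) : ℝ)) = 2912 := by
      push_cast
      norm_num
    rw [h2] at h1
    exact h1

end Pool.Agent.L5helper59.DM
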